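import Pool.Agent.Helper29.GlauberLower

namespace GlauberMono

theorem tmix_le {V : Type} [Fintype V] [DecidableEq V] (G : SimpleGraph V) (q t : ℕ)
    (h : ∀ σ : Col G q, tv G q t σ ≤ Real.exp (-1)) : tmix G q ≤ t :=
  sInf_le ⟨t, rfl, h⟩

instance (u v : Fin 4) : Decidable ((SimpleGraph.pathGraph 4).Adj u v) :=
  decidable_of_iff _ SimpleGraph.pathGraph_adj.symm

theorem le_tmix {V : Type} [Fintype V] [DecidableEq V] (G : SimpleGraph V) (q t : ℕ)
    (h : ∀ s, s < t → ∃ σ : Col G q, Real.exp (-1) < tv G q s σ) : (t : ℕ∞) ≤ tmix G q := by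
  refine le_sInf ?_
  rintro T ⟨s, rfl, hs⟩
  by_contra hc
  have hlt : s < t := by
    have : (s : ℕ∞) < t := not_le.mp hc
    exact_mod_cast this
  obtain ⟨σ, hσ⟩ := h s hlt
  exact absurd (hs σ) (not_le.mpr hσ)

end GlauberMono

namespace Pool.Agent.Results.MP_a221c1_pr.PathNotMonotone

open GlauberMono in
/-- Let `G` be the path on four vertices: connected, maximum degree `2`, hence `Δ + 2 = 4`.
Then `t_G(7) ≤ 8`, while `t_G(q) ≥ 9` for all `q ≥ 1000`; in particular there is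
`q ≥ Δ + 2` with `t_G(q) < t_G(q + 1)`. -/
theorem result :
    (SimpleGraph.pathGraph 4).Connected ∧ (SimpleGraph.pathGraph 4).maxDegree = 2 ∧
    (∃ q : ℕ, (SimpleGraph.pathGraph 4).maxDegree + 2 ≤ q ∧
      tmix (SimpleGraph.pathGraph 4) q < tmix (SimpleGraph.pathGraph 4) (q + 1)) ∧
    tmix (SimpleGraph.pathGraph 4) 7 ≤ 8 ∧
    (∀ q : ℕ, 1000 ≤ q → 9 ≤ tmix (SimpleGraph.pathGraph 4) q) := by
  have hdeg : (SimpleGraph.pathGraph 4).maxDegree = 2 := by decide
  have h7 : tmix (SimpleGraph.pathGraph 4) 7 ≤ 8 := by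
    have := tmix_le (SimpleGraph.pathGraph 4) 7 8 upper
    exact_mod_cast this
  have h9 : ∀ q : ℕ, 1000 ≤ q → 9 ≤ tmix (SimpleGraph.pathGraph 4) q := by
    intro q hq
    have := le_tmix (SimpleGraph.pathGraph 4) q 9
      (fun s hs => ⟨_, lower q hq s (by omega)⟩)
    exact_mod_cast this
  refine ⟨SimpleGraph.pathGraph_connected 3, hdeg, ?_, h7, h9⟩
  by_contra hcon
  push Not at hcon
  have hmono : ∀ q : ℕ, 7 ≤ q → tmix (SimpleGraph.pathGraph 4) q ≤ 8 := by
    intro q hq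
    induction q, hq using Nat.le_induction with
    | base => exact h7
    | succ n hn ih => exact le_trans (hcon n (by rw [hdeg]; omega)) ih
  have h1 := hmono 1000 (by norm_num)
  have h2 := h9 1000 le_rfl
  have h3 : (9 : ℕ∞) ≤ 8 := le_trans h2 h1
  exact absurd h3 (by decide)

end Pool.Agent.Results.MP_a221c1_pr.PathNotMonotone
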